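import Mathlib
import Pool.Agent.R833.Tame4

/-!
# Every reduced hypersurface is tame with respect to some part of a minimal set of generators

The ambient space is `P^n` with `n = k + 1`, so the polynomial ring has the `k + 2` variables
`x_0, …, x_{k+1}` and a tuple `ρ̂` has `k = n - 1` entries.
-/

set_option autoImplicit false
set_option linter.unusedSectionVars false

namespace Pool.Agent.Results.MP_0a8f3f_ag.AlwaysTame

open MvPolynomial

universe u

variable {K : Type u} [Field K] {k : ℕ}

/-- The polynomial ring `S = K[x_0, …, x_n]`, where `n = k + 1`. -/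
abbrev Pol (K : Type u) [Field K] (k : ℕ) : Type u := MvPolynomial (Fin (k + 2)) K

/-- Vectors `(a_0, …, a_n)` of polynomials. -/
abbrev Vec (K : Type u) [Field K] (k : ℕ) : Type u := Fin (k + 2) → Pol K k

/-- `ρ = (a_0, …, a_n)` is a Jacobian syzygy of `f`, that is, a member of `D_0(f)`. -/
def IsSyz (f : Pol K k) (ρ : Vec K k) : Prop := ∑ j, ρ j * pderiv j f = 0

/-- The combination `∑ a_i ρ_i`. For `ρ = ρ̂` this is the map `u`. -/
noncomputable def comb {m : ℕ} (ρ : Fin m → Vec K k) (a : Fin m → Pol K k) : Vec K k :=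
  fun j => ∑ i, a i * ρ i j

/-- `ρ` is a finite family of homogeneous syzygies (all the components of each member are
homogeneous of a common degree) which generates `D_0(f)`. -/
structure HomGenerators (f : Pol K k) {m : ℕ} (ρ : Fin m → Vec K k) : Prop where
  /-- the members are syzygies -/
  syz : ∀ i, IsSyz f (ρ i)
  /-- they are homogeneous -/
  homogeneous : ∀ i, ∃ d : ℕ, ∀ j, (ρ i j).IsHomogeneous d
  /-- every syzygy is a combination of them -/
  generate : ∀ σ, IsSyz f σ → ∃ a, σ = comb ρ a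

/-- A minimal set of generators of `D_0(f)`: a generating family of homogeneous syzygies with the
least possible number of members. -/
def MinimalGenerators (f : Pol K k) {m : ℕ} (ρ : Fin m → Vec K k) : Prop :=
  HomGenerators f ρ ∧ ∀ (m' : ℕ) (ρ' : Fin m' → Vec K k), HomGenerators f ρ' → m ≤ m'

/-- The matrix `M(ρ̂, ρ)` with rows `(x_0, …, x_n)`, `ρ_1, …, ρ_{n-1}`, `ρ`. -/
noncomputable def matrixM (r : Fin k → Vec K k) (ρ : Vec K k) :
    Matrix (Fin (k + 2)) (Fin (k + 2)) (Pol K k) :=
  Matrix.of (Fin.cons (fun j => X j) (Fin.snoc r ρ : Fin (k + 1) → Vec K k))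

/-- `V : f = 0` is tame with respect to `ρ̂`: there is `v` with `v(ρ) = det M(ρ̂, ρ) / f` for all
`ρ` in `D_0(f)`, the map `u` is injective, and `ker v = im u`. -/
def Tame (f : Pol K k) (r : Fin k → Vec K k) : Prop :=
  ∃ v : Vec K k → Pol K k, (∀ ρ, IsSyz f ρ → f * v ρ = (matrixM r ρ).det) ∧
    Function.Injective (comb r) ∧ ∀ ρ, IsSyz f ρ → (v ρ = 0 ↔ ∃ a, ρ = comb r a)

/-- Every reduced hypersurface `V : f = 0` of degree `d ≥ 1` in `P^{k+1}` over a field of
characteristic zero is tame with respect to a `k`-tuple of members of some minimal set of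
generators of `D_0(f)`. -/
theorem result {K : Type u} [Field K] [CharZero K] (k d : ℕ) (hd : 1 ≤ d)
    (f : Pol K k) (hf : f.IsHomogeneous d) (hsq : Squarefree f) :
    ∃ (m : ℕ) (ρ : Fin m → Vec K k), MinimalGenerators f ρ ∧
      ∃ a : Fin k → Fin m, Function.Injective a ∧ Tame f (fun i => ρ (a i)) := by
  obtain ⟨m, ρ, ⟨⟨h1, h2⟩, h3⟩, a, v, hv, hu, hex⟩ :=
    Pool.Agent.R833.TM4.tame_aux (K := K) k d hd f hf hsq
  have hcomb : ∀ {m' : ℕ} (r : Fin m' → Pool.Agent.R833.TM4.D0 f) (c : Fin m' → Pol K k),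
      (∑ i, c i • r i).1 = comb (fun i => (r i).1) c := by
    intro m' r c
    ext1 j
    rw [AddSubmonoidClass.coe_finsetSum, Finset.sum_apply]
    rfl
  refine ⟨m, fun i => (ρ i).1, ⟨⟨fun i => (ρ i).2, h1, ?_⟩, ?_⟩, a, a.injective, ?_⟩
  · intro σ hσ
    have h4 : (⟨σ, hσ⟩ : Pool.Agent.R833.TM4.D0 f) ∈
        Submodule.span (Pol K k) (Set.range ρ) := by
      rw [h2]
      trivial
    obtain ⟨c, hc⟩ := (Submodule.mem_span_range_iff_exists_fun _).1 h4
    refine ⟨c, ?_⟩
    rw [← hcomb, hc]
  · intro m' ρ' hρ'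
    apply h3 m' (fun i => ⟨ρ' i, hρ'.syz i⟩)
    refine ⟨hρ'.homogeneous, ?_⟩
    rw [eq_top_iff]
    rintro ⟨σ, hσ⟩ _
    obtain ⟨c, hc⟩ := hρ'.generate σ hσ
    rw [Submodule.mem_span_range_iff_exists_fun]
    refine ⟨c, Subtype.ext ?_⟩
    exact (hcomb _ _).trans hc.symm
  · classical
    refine ⟨fun ρ' => if h : IsSyz f ρ' then v ⟨ρ', h⟩ else 0, ?_, ?_, ?_⟩
    · intro ρ' h
      have := hv ⟨ρ', h⟩
      simp only [dif_pos h]
      exact this
    · intro x y hxy
      apply hu
      apply Subtype.ext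
      have h5 := hcomb (fun i => ρ (a i)) x
      have h6 := hcomb (fun i => ρ (a i)) y
      simp only [Pool.Agent.R833.TM4.mapU, Fintype.linearCombination_apply]
      rw [h5, h6]
      exact hxy
    · intro ρ' h
      simp only [dif_pos h]
      rw [← LinearMap.mem_ker, hex, LinearMap.mem_range]
      constructor
      · rintro ⟨c, hc⟩
        refine ⟨c, ?_⟩
        have h5 := hcomb (fun i => ρ (a i)) c
        rw [← h5]
        simp only [Pool.Agent.R833.TM4.mapU, Fintype.linearCombination_apply] at hc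
        rw [hc]
      · rintro ⟨c, hc⟩
        refine ⟨c, Subtype.ext ?_⟩
        have h5 := hcomb (fun i => ρ (a i)) c
        simp only [Pool.Agent.R833.TM4.mapU, Fintype.linearCombination_apply]
        rw [h5]
        exact hc.symm

end Pool.Agent.Results.MP_0a8f3f_ag.AlwaysTame
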